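import Pool.Agent.Helper7.BM.Goals2

/-! Packet COP of project BM (MP_57df85_nt): `f(Y) - g(X)` and a polynomial of small degree in `Y`
are relatively prime. -/

namespace Pool.Agent.Helper78.BM

open Pool.Agent.Helper7.BM Polynomial

/-- the substitution `X ↦ (1-u) t^α`, `Y ↦ u t^β` -/
noncomputable def rho (α : ℕ) : ℚ[X] →+* ℚ[X][X] :=
  eval₂RingHom ((C : ℚ[X] →+* ℚ[X][X]).comp (C : ℚ →+* ℚ[X])) (C (1 - X) * X ^ α)

noncomputable def chi (α β : ℕ) : ℚ[X][X] →+* ℚ[X][X] :=
  eval₂RingHom (rho α) (C X * X ^ β)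

theorem chi_zero (α β : ℕ) (P : ℚ[X][X]) :
    (chi α β P).map (evalRingHom (0 : ℚ)) = expand ℚ α (P.coeff 0) := by
  have h1 : (mapRingHom (evalRingHom (0 : ℚ))).comp (rho α) = (expand ℚ α : ℚ[X] →ₐ[ℚ] ℚ[X]).toRingHom := by
    apply Polynomial.ringHom_ext
    · intro a
      simp [rho]
    · simp [rho]
  have h2 : (chi α β P).map (evalRingHom (0 : ℚ)) =
      (mapRingHom (evalRingHom (0 : ℚ))) (chi α β P) := rfl
  rw [h2, chi, coe_eval₂RingHom, hom_eval₂, h1]
  have h3 : (mapRingHom (evalRingHom (0 : ℚ))) (C X * X ^ β) = 0 := by simp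
  rw [h3, eval₂_at_zero]
  rfl

theorem chi_one (α β : ℕ) (hα : 0 < α) (P : ℚ[X][X]) :
    (chi α β P).map (evalRingHom (1 : ℚ)) = expand ℚ β (P.map (evalRingHom (0 : ℚ))) := by
  have h1 : (mapRingHom (evalRingHom (1 : ℚ))).comp (rho α) =
      (C : ℚ →+* ℚ[X]).comp (evalRingHom (0 : ℚ)) := by
    apply Polynomial.ringHom_ext
    · intro a
      simp [rho]
    · simp [rho]
  have h2 : (chi α β P).map (evalRingHom (1 : ℚ)) =
      (mapRingHom (evalRingHom (1 : ℚ))) (chi α β P) := rfl
  rw [h2, chi, coe_eval₂RingHom, hom_eval₂, h1]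
  have h3 : (mapRingHom (evalRingHom (1 : ℚ))) (C X * X ^ β) = X ^ β := by simp
  rw [h3, coe_expand, eval₂_map]

theorem chi_deg (α β d : ℕ) (f g : ℚ[X]) (hf : f.natDegree = d * α) (hg : g.natDegree = d * β) :
    (chi α β (f.map C - C g)).natDegree ≤ d * α * β := by
  rw [map_sub]
  refine (natDegree_sub_le _ _).trans (max_le ?_ ?_)
  · have : chi α β (f.map C) = (f.map C).comp (C X * X ^ β) := by
      rw [chi, coe_eval₂RingHom, eval₂_map, comp, eval₂_map]
      congr 1
      apply RingHom.ext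
      intro a
      simp [rho]
    rw [this]
    refine natDegree_comp_le.trans ?_
    have h1 : (f.map (C : ℚ →+* ℚ[X])).natDegree ≤ d * α := (natDegree_map_le).trans hf.le
    have h2 : (C (X : ℚ[X]) * X ^ β).natDegree ≤ β := natDegree_C_mul_X_pow_le _ _
    exact Nat.mul_le_mul h1 h2
  · have : chi α β (C g) = (g.map C).comp (C (1 - X) * X ^ α) := by
      rw [chi, coe_eval₂RingHom, eval₂_C, rho, coe_eval₂RingHom, comp, eval₂_map]
    rw [this]
    refine natDegree_comp_le.trans ?_
    have h1 : (g.map (C : ℚ →+* ℚ[X])).natDegree ≤ d * β := (natDegree_map_le).trans hg.le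
    have h2 : (C (1 - X : ℚ[X]) * X ^ α).natDegree ≤ α := natDegree_C_mul_X_pow_le _ _
    calc _ ≤ d * β * α := Nat.mul_le_mul h1 h2
      _ = d * α * β := by ring

theorem cop : StmtCOP := by
  intro f g d α β hd hα hβ hc hf hg hfd hgd G hG hGd H hHF hHG
  obtain ⟨H', hF⟩ := hHF
  set F := f.map C - C g with hFdef
  have hdα : 0 < d * α := Nat.mul_pos hd hα
  have hdβ : 0 < d * β := Nat.mul_pos hd hβ
  have hFm : F.Monic := by
    apply (hf.map C).sub_of_left
    rw [degree_eq_natDegree (hf.map C).ne_zero, natDegree_map_eq_of_injective (C_injective), hfd]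
    refine lt_of_le_of_lt degree_C_le ?_
    exact_mod_cast hdα
  have hFne : F ≠ 0 := hFm.ne_zero
  have hHne : H ≠ 0 := fun h => hFne (by rw [hF, h, zero_mul])
  have hH'ne : H' ≠ 0 := fun h => hFne (by rw [hF, h, mul_zero])
  have hlc : H.leadingCoeff * H'.leadingCoeff = 1 := by
    rw [← leadingCoeff_mul, ← hF]; exact hFm
  have hlu : IsUnit H.leadingCoeff := IsUnit.of_mul_eq_one _ hlc
  have hHd : H.natDegree < α := lt_of_le_of_lt (natDegree_le_of_dvd hHG hG) hGd
  -- specializations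
  have e0 : H.map (evalRingHom (0 : ℚ)) * H'.map (evalRingHom (0 : ℚ)) = f - C (g.eval 0) := by
    rw [← Polynomial.map_mul, ← hF, hFdef, Polynomial.map_sub, map_C, Polynomial.map_map]
    have : (evalRingHom (0 : ℚ)).comp (C : ℚ →+* ℚ[X]) = RingHom.id ℚ := by
      apply RingHom.ext; intro a; simp
    rw [this, Polynomial.map_id]
    rfl
  have e1 : H.coeff 0 * H'.coeff 0 = C (f.coeff 0) - g := by
    rw [← mul_coeff_zero, ← hF, hFdef, coeff_sub, coeff_map, coeff_C_zero]
  have n0 : (f - C (g.eval 0)).natDegree = d * α := by rw [natDegree_sub_C, hfd]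
  have n1 : (C (f.coeff 0) - g).natDegree = d * β := by
    rw [← natDegree_neg, neg_sub, natDegree_sub_C, hgd]
  have z0 : f - C (g.eval 0) ≠ 0 := by
    intro h; rw [h, natDegree_zero] at n0; omega
  have z1 : C (f.coeff 0) - g ≠ 0 := by
    intro h; rw [h, natDegree_zero] at n1; omega
  have a0 : H.map (evalRingHom (0 : ℚ)) ≠ 0 := fun h => z0 (by rw [← e0, h, zero_mul])
  have a0' : H'.map (evalRingHom (0 : ℚ)) ≠ 0 := fun h => z0 (by rw [← e0, h, mul_zero])
  have a1 : H.coeff 0 ≠ 0 := fun h => z1 (by rw [← e1, h, zero_mul])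
  have a1' : H'.coeff 0 ≠ 0 := fun h => z1 (by rw [← e1, h, mul_zero])
  have s0 : (H.map (evalRingHom (0 : ℚ))).natDegree + (H'.map (evalRingHom (0 : ℚ))).natDegree = d * α := by
    rw [← natDegree_mul a0 a0', e0, n0]
  have s1 : (H.coeff 0).natDegree + (H'.coeff 0).natDegree = d * β := by
    rw [← natDegree_mul a1 a1', e1, n1]
  -- weights
  have w0 : ∀ P : ℚ[X][X], (P.coeff 0).natDegree * α ≤ (chi α β P).natDegree := by
    intro P
    rw [← natDegree_expand, ← chi_zero α β P]
    exact natDegree_map_le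
  have w1 : ∀ P : ℚ[X][X], (P.map (evalRingHom (0 : ℚ))).natDegree * β ≤ (chi α β P).natDegree := by
    intro P
    rw [← natDegree_expand, ← chi_one α β hα P]
    exact natDegree_map_le
  have c0 : chi α β H ≠ 0 := by
    intro h
    have := chi_one α β hα H
    rw [h, Polynomial.map_zero] at this
    exact a0 ((expand_eq_zero hβ).1 this.symm)
  have c0' : chi α β H' ≠ 0 := by
    intro h
    have := chi_one α β hα H'
    rw [h, Polynomial.map_zero] at this
    exact a0' ((expand_eq_zero hβ).1 this.symm)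
  have hw : (chi α β H).natDegree + (chi α β H').natDegree ≤ d * α * β := by
    rw [← natDegree_mul c0 c0', ← map_mul, ← hF]
    exact chi_deg α β d f g hfd hgd
  have b1 := w0 H
  have b2 := w0 H'
  have b3 := w1 H
  have b4 := w1 H'
  have s0' : (H.map (evalRingHom (0 : ℚ))).natDegree * β + (H'.map (evalRingHom (0 : ℚ))).natDegree * β =
      d * α * β := by rw [← s0]; ring
  have s1' : (H.coeff 0).natDegree * α + (H'.coeff 0).natDegree * α = d * α * β := by
    rw [← add_mul, s1]; ring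
  have key : (H.map (evalRingHom (0 : ℚ))).natDegree * β = (H.coeff 0).natDegree * α := by omega
  have hn : (H.map (evalRingHom (0 : ℚ))).natDegree = H.natDegree := by
    apply natDegree_map_of_leadingCoeff_ne_zero
    exact (hlu.map (evalRingHom (0 : ℚ))).ne_zero
  rw [hn] at key
  have hdvd : α ∣ H.natDegree := by
    refine hc.dvd_of_dvd_mul_right ?_
    rw [key]
    exact dvd_mul_left _ _
  have hz : H.natDegree = 0 := Nat.eq_zero_of_dvd_of_lt hdvd hHd
  rw [eq_C_of_natDegree_eq_zero hz]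
  apply isUnit_C.2
  have : H.leadingCoeff = H.coeff 0 := by rw [leadingCoeff, hz]
  rwa [← this]

end Pool.Agent.Helper78.BM
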