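import Pool.Agent.Helper7.BM.Goals

/-!
# Project BM (MP_57df85_nt), packet EXI: application of Baker's method, independent case
-/

set_option autoImplicit false

open Finset

namespace Pool.Agent.Helper78.BM

open Pool.Agent.Helper7.BM

theorem sg_lt {p q a : ℕ} (hpq : p < q) (ha : 1 ≤ a) : sg p a < sg q a := by
  unfold sg
  apply Finset.sum_lt_sum
  · intro i _
    exact Nat.pow_le_pow_left hpq.le i
  · exact ⟨1, by simp; omega, by simpa using hpq⟩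

theorem sg_mono {q a b : ℕ} (h : a ≤ b) : sg q a ≤ sg q b := by
  unfold sg
  exact Finset.sum_le_sum_of_subset (Finset.range_mono (by omega))

theorem b_lt {p q a b : ℕ} (hpq : p < q) (ha : 1 ≤ a) (h : sg p a = sg q b) : b < a := by
  by_contra hc
  have h1 := sg_lt hpq ha
  have h2 : sg q a ≤ sg q b := sg_mono (by omega)
  omega

theorem log_le_two_sqrt {x : ℝ} (hx : 1 ≤ x) : Real.log x ≤ 2 * Real.sqrt x := by
  have h0 : (0 : ℝ) < x := by linarith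
  have h1 : Real.log x = 2 * Real.log (Real.sqrt x) := by
    rw [Real.log_sqrt h0.le]; ring
  rw [h1]
  have h2 : 0 < Real.sqrt x := Real.sqrt_pos.2 h0
  have := Real.log_le_sub_one_of_pos h2
  linarith

theorem pow_le_exp {M : ℕ} (hM : 2 ^ 50 ≤ M) : (M : ℝ) ^ 13 ≤ Real.exp ((M : ℝ) / 2) := by
  have hM' : (2 : ℝ) ^ 50 ≤ M := by exact_mod_cast hM
  have h0 : (0 : ℝ) < M := lt_of_lt_of_le (by positivity) hM'
  have h1 : (1 : ℝ) ≤ M := le_trans (by norm_num) hM'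
  rw [← Real.exp_log h0, ← Real.exp_nat_mul, Real.exp_log h0]
  apply Real.exp_le_exp.2
  have h2 := log_le_two_sqrt h1
  have h3 : (52 : ℝ) ≤ Real.sqrt M := by
    apply Real.le_sqrt_of_sq_le
    exact le_trans (by norm_num) hM'
  have h4 : Real.sqrt M * Real.sqrt M = M := Real.mul_self_sqrt h0.le
  push_cast
  nlinarith

theorem add_two_le_exp {a M : ℕ} (h : 4 * Real.log ((a : ℝ) + 2) ≤ M) :
    (a : ℝ) + 2 ≤ Real.exp ((M : ℝ) / 4) := by
  have h0 : (0 : ℝ) < (a : ℝ) + 2 := by positivity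
  rw [← Real.exp_log h0]
  apply Real.exp_le_exp.2
  linarith

theorem g_bound {a M : ℕ} (hM : 2 ^ 50 ≤ M) (h : 4 * Real.log ((a : ℝ) + 2) ≤ M) :
    ((a : ℝ) + 2) * (M : ℝ) ^ 13 ≤ Real.exp M := by
  have h1 := pow_le_exp hM
  have h2 := add_two_le_exp h
  have h3 : (0 : ℝ) ≤ M := Nat.cast_nonneg _
  calc ((a : ℝ) + 2) * (M : ℝ) ^ 13 ≤ Real.exp ((M : ℝ) / 4) * Real.exp ((M : ℝ) / 2) := by
        gcongr
    _ = Real.exp ((M : ℝ) / 4 + (M : ℝ) / 2) := by rw [Real.exp_add]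
    _ ≤ Real.exp M := Real.exp_le_exp.2 (by linarith)

/-- the index set -/
abbrev I (M : ℕ) : Type := Fin (M ^ 13) × Fin (M ^ 13) × Fin (M ^ 13)

theorem card_I (M : ℕ) : Fintype.card (I M) = M ^ 39 := by
  simp only [Fintype.card_prod, Fintype.card_fin]
  ring

theorem fin_le {M : ℕ} (i : Fin (M ^ 13)) : ((i : ℕ) : ℝ) ≤ (M : ℝ) ^ 13 := by
  have := i.2.le
  exact_mod_cast this

theorem exi (h1 : StmtAB) (h2 : StmtLAM) (h3 : StmtDEP) : StmtEXI := by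
  intro p q a b M hp hq hpq ha hb hsg hnc hM hq3 ha4
  have hba := b_lt hpq ha hsg
  have hp2 : 2 ≤ p := hp.two_le
  have hM0 : 0 < M := lt_of_lt_of_le (by positivity) hM
  have hMr : (0 : ℝ) < M := by exact_mod_cast hM0
  have pr : (2 : ℝ) ≤ p := by exact_mod_cast hp2
  have pqr : (p : ℝ) + 1 ≤ q := by exact_mod_cast hpq
  have hp0 : (0 : ℝ) < p := by linarith
  have hq0 : (0 : ℝ) < q := by linarith
  have hp1 : (0 : ℝ) < (p : ℝ) - 1 := by linarith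
  have hq1 : (0 : ℝ) < (q : ℝ) - 1 := by linarith
  have hr : (0 : ℝ) < ((q : ℝ) - 1) / ((p : ℝ) - 1) := by positivity
  have hr1 : (1 : ℝ) ≤ ((q : ℝ) - 1) / ((p : ℝ) - 1) := by
    rw [le_div_iff₀ hp1]; linarith
  have hrq : ((q : ℝ) - 1) / ((p : ℝ) - 1) ≤ q := by
    rw [div_le_iff₀ hp1]; nlinarith
  have lp : 0 ≤ Real.log p := Real.log_nonneg (by linarith)
  have lq : 0 ≤ Real.log q := Real.log_nonneg (by linarith)
  have lpq : Real.log p ≤ Real.log q := Real.log_le_log hp0 (by linarith)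
  have lr : 0 ≤ Real.log (((q : ℝ) - 1) / ((p : ℝ) - 1)) := Real.log_nonneg hr1
  have lrq : Real.log (((q : ℝ) - 1) / ((p : ℝ) - 1)) ≤ Real.log q := Real.log_le_log hr hrq
  have hLam := h2 p q a b hp2 hpq ha hb hsg
  set Lr := Real.log (((q : ℝ) - 1) / ((p : ℝ) - 1)) with hLr
  have hMM : (M : ℝ) ^ 14 = (M : ℝ) ^ 13 * M := by ring
  -- the numbers
  have key := h1 (I M) M ((p - 1) ^ (M ^ 13))
    (fun i => ((i.1 : ℕ) : ℤ) - ((a : ℤ) + 1) * ((i.2.2 : ℕ) : ℤ))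
    (fun i => ((i.2.1 : ℕ) : ℤ) + ((b : ℤ) + 1) * ((i.2.2 : ℕ) : ℤ))
    (fun i => (p : ℝ) ^ (i.1 : ℕ) * (q : ℝ) ^ (i.2.1 : ℕ) *
      (((q : ℝ) - 1) / ((p : ℝ) - 1)) ^ (i.2.2 : ℕ))
    (Real.log p) (Real.log q) hM (card_I M).le
  have logA : ∀ i : I M, Real.log ((p : ℝ) ^ (i.1 : ℕ) * (q : ℝ) ^ (i.2.1 : ℕ) *
      (((q : ℝ) - 1) / ((p : ℝ) - 1)) ^ (i.2.2 : ℕ)) =
      (i.1 : ℕ) * Real.log p + (i.2.1 : ℕ) * Real.log q + (i.2.2 : ℕ) * Lr := by
    intro i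
    rw [Real.log_mul (by positivity) (by positivity), Real.log_mul (by positivity) (by positivity),
      Real.log_pow, Real.log_pow, Real.log_pow]
  refine Exists.elim (key ?_ ?_ ?_ ?_ ?_ ?_ ?_ ?_) (fun i hi => ?_)
  rotate_left 8
  · refine lt_of_lt_of_le hi ?_
    rw [logA i]
    have e : ((i.1 : ℕ) * Real.log p + (i.2.1 : ℕ) * Real.log q + (i.2.2 : ℕ) * Lr) -
        (Real.log p * ((((i.1 : ℕ) : ℤ) - ((a : ℤ) + 1) * ((i.2.2 : ℕ) : ℤ) : ℤ) : ℝ) +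
          Real.log q * ((((i.2.1 : ℕ) : ℤ) + ((b : ℤ) + 1) * ((i.2.2 : ℕ) : ℤ) : ℤ) : ℝ)) =
        -(((i.2.2 : ℕ) : ℝ) * (((b : ℝ) + 1) * Real.log q - ((a : ℝ) + 1) * Real.log p - Lr)) := by
      push_cast
      ring
    rw [e, abs_neg, abs_mul, abs_of_nonneg (Nat.cast_nonneg _)]
    exact mul_le_mul (fin_le _) hLam (abs_nonneg _) (by positivity)
  · -- card
    left
    rw [card_I]
    have : 2 ≤ M ^ 2 := by
      have : 2 ≤ M := le_trans (by norm_num) hM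
      nlinarith
    calc 2 * M ^ 37 ≤ M ^ 2 * M ^ 37 := Nat.mul_le_mul_right _ this
      _ = M ^ 39 := by ring
  · -- bounds
    intro i
    have hb1 := g_bound hM ha4
    have i1 := fin_le i.1
    have i2 := fin_le i.2.1
    have i3 := fin_le i.2.2
    have j1 : (0 : ℝ) ≤ ((i.1 : ℕ) : ℝ) := Nat.cast_nonneg _
    have j2 : (0 : ℝ) ≤ ((i.2.1 : ℕ) : ℝ) := Nat.cast_nonneg _
    have j3 : (0 : ℝ) ≤ ((i.2.2 : ℕ) : ℝ) := Nat.cast_nonneg _
    have ar : (0 : ℝ) ≤ a := Nat.cast_nonneg _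
    have br : (0 : ℝ) ≤ b := Nat.cast_nonneg _
    have bar : (b : ℝ) ≤ a := by exact_mod_cast hba.le
    have hMp : (0 : ℝ) ≤ (M : ℝ) ^ 13 := by positivity
    constructor
    · refine le_trans ?_ hb1
      push_cast
      rw [abs_le]
      constructor
      · nlinarith
      · nlinarith [mul_nonneg ar j3, mul_nonneg ar hMp]
    · refine le_trans ?_ hb1
      push_cast
      rw [abs_le]
      constructor
      · nlinarith [mul_nonneg br j3, mul_nonneg ar hMp]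
      · have : ((b : ℝ) + 1) * ((i.2.2 : ℕ) : ℝ) ≤ ((a : ℝ) + 1) * (M : ℝ) ^ 13 :=
          mul_le_mul (by linarith) i3 j3 (by positivity)
        nlinarith
  · -- injectivity
    intro i i' hii
    simp only at hii
    by_contra hne
    apply hnc
    apply h3 p q hp hq hpq (((i.1 : ℕ) : ℤ) - ((i'.1 : ℕ) : ℤ)) (((i.2.1 : ℕ) : ℤ) - ((i'.2.1 : ℕ) : ℤ))
      (((i.2.2 : ℕ) : ℤ) - ((i'.2.2 : ℕ) : ℤ))
    · rintro ⟨e1, e2, e3⟩
      apply hne
      have f1 : i.1 = i'.1 := Fin.ext (by omega)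
      have f2 : i.2.1 = i'.2.1 := Fin.ext (by omega)
      have f3 : i.2.2 = i'.2.2 := Fin.ext (by omega)
      exact Prod.ext f1 (Prod.ext f2 f3)
    · rw [zpow_sub₀ hp0.ne', zpow_sub₀ hq0.ne', zpow_sub₀ hr.ne', zpow_natCast, zpow_natCast,
        zpow_natCast, zpow_natCast, zpow_natCast, zpow_natCast]
      rw [div_mul_div_comm, div_mul_div_comm, div_eq_one_iff_eq (by positivity)]
      exact hii
  · intro i
    positivity
  · intro i
    rw [logA i]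
    have i1 := fin_le i.1
    have i2 := fin_le i.2.1
    have i3 := fin_le i.2.2
    have j1 : (0 : ℝ) ≤ ((i.1 : ℕ) : ℝ) := Nat.cast_nonneg _
    have j2 : (0 : ℝ) ≤ ((i.2.1 : ℕ) : ℝ) := Nat.cast_nonneg _
    have j3 : (0 : ℝ) ≤ ((i.2.2 : ℕ) : ℝ) := Nat.cast_nonneg _
    have hMp : (0 : ℝ) ≤ (M : ℝ) ^ 13 := by positivity
    have t1 : ((i.1 : ℕ) : ℝ) * Real.log p ≤ (M : ℝ) ^ 13 * Real.log q := by gcongr
    have t2 : ((i.2.1 : ℕ) : ℝ) * Real.log q ≤ (M : ℝ) ^ 13 * Real.log q := by gcongr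
    have t3 : ((i.2.2 : ℕ) : ℝ) * Lr ≤ (M : ℝ) ^ 13 * Real.log q := by gcongr
    rw [abs_of_nonneg (by positivity), hMM]
    have : (M : ℝ) ^ 13 * (3 * Real.log q) ≤ (M : ℝ) ^ 13 * M := by gcongr
    linarith
  · exact Nat.one_le_pow _ _ (by omega)
  · push_cast [Nat.cast_sub (show 1 ≤ p by omega)]
    rw [Real.log_pow, hMM]
    push_cast
    have : Real.log ((p : ℝ) - 1) ≤ Real.log q := Real.log_le_log hp1 (by linarith)
    have h5 : Real.log ((p : ℝ) - 1) ≤ M := by linarith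
    gcongr
  · intro i
    have hlt := i.2.2.2
    refine ⟨((p : ℤ) - 1) ^ (M ^ 13 - (i.2.2 : ℕ)) * (p : ℤ) ^ (i.1 : ℕ) * (q : ℤ) ^ (i.2.1 : ℕ) *
      ((q : ℤ) - 1) ^ (i.2.2 : ℕ), ?_⟩
    push_cast [Nat.cast_sub (show 1 ≤ p by omega)]
    have e : ((p : ℝ) - 1) ^ (M ^ 13) = ((p : ℝ) - 1) ^ (M ^ 13 - (i.2.2 : ℕ)) *
        ((p : ℝ) - 1) ^ (i.2.2 : ℕ) := by
      rw [← pow_add]
      congr 1
      omega
    rw [e, div_pow]
    field_simp

end Pool.Agent.Helper78.BM
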